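import Pool.Agent.Q26.LF.MainB

/-!
# The Lefschetz standard conjecture in families: from the fibre to the generic fibre
-/

open CategoryTheory AlgebraicGeometry Finset

universe u v u₀ v₀

namespace Pool.Agent.Q26.LF

open Pool.Agent.H914 Pool.Agent.H914.VarClass Pool.Agent.H914.VarClass.Obj
  Pool.Agent.H914.WeilCohomology Pool.Agent.H447

variable {k : Type u} [Field k] {𝒱 : VarClass k} {ops : CycleOps 𝒱}
  {k₀ : Type u₀} [Field k₀] {𝒱₀ : VarClass k₀} {ops₀ : CycleOps 𝒱₀}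
  {W : WeilCohomology.{u, v} ops} {W₀ : WeilCohomology.{u₀, v₀} ops₀} {X : 𝒱.Obj}
  {X₀ Y Z : 𝒱₀.Obj} {D : X.Cycles} {D₀ : X₀.Cycles}

section Span

lemma map_span {A B : 𝒱₀.Obj} (f : A ⟶ B) {q : ℤ} {γ : W₀.H B} (hγ : γ ∈ spanCycles W₀ B q) :
    W₀.map f γ ∈ spanCycles W₀ A q := by
  induction hγ using Submodule.span_induction with
  | mem x hx =>
    obtain ⟨p, hp, z, hz, rfl⟩ := hx
    exact Submodule.subset_span ⟨p, hp, ops₀.pull f z, ops₀.pull_mem _ hz, W₀.cl_pull _ _⟩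
  | zero => rw [map_zero]; exact Submodule.zero_mem _
  | add x y _ _ hx hy => rw [map_add]; exact Submodule.add_mem _ hx hy
  | smul a x _ hx => rw [map_smul]; exact Submodule.smul_mem _ _ hx

lemma push_span {A B : 𝒱₀.Obj} (f : A ⟶ B) (h : B.dim = A.dim + 1) {q : ℕ} {γ : W₀.H A}
    (hγ : γ ∈ spanCycles W₀ A q) : W₀.push f γ ∈ spanCycles W₀ B ((q + 1 : ℕ) : ℤ) := by
  induction hγ using Submodule.span_induction with
  | mem x hx =>
    obtain ⟨p, hp, z, hz, rfl⟩ := hx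
    obtain rfl : p = q := by exact_mod_cast hp
    exact Submodule.subset_span ⟨p + 1, rfl, ops₀.push f z,
      ops₀.push_mem _ hz (by rw [h]; ring), W₀.cl_push _ _⟩
  | zero => rw [map_zero]; exact Submodule.zero_mem _
  | add x y _ _ hx hy => rw [map_add]; exact Submodule.add_mem _ hx hy
  | smul a x _ hx => rw [map_smul]; exact Submodule.smul_mem _ _ hx

lemma kop_span {A : 𝒱₀.Obj} {φ : W₀.H A →ₗ[W₀.K] W₀.H A} (hφ : φ ∈ KOp W₀ A A (-1)) {q : ℕ}
    {γ : W₀.H A} (hγ : γ ∈ spanCycles W₀ A ((q + 1 : ℕ) : ℤ)) :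
    φ γ ∈ spanCycles W₀ A (q : ℤ) := by
  induction hφ using Submodule.span_induction with
  | mem x hx =>
    obtain ⟨p, hp, z, hz, rfl⟩ := hx
    induction hγ using Submodule.span_induction with
    | mem x hx =>
      obtain ⟨p', hp', w, hw, rfl⟩ := hx
      obtain rfl : p' = q + 1 := by exact_mod_cast hp'
      refine Submodule.subset_span ⟨q, rfl,
        ops₀.push (snd A A) (ops₀.mul z (ops₀.pull (fst A A) w)), ?_, ?_⟩
      · apply ops₀.push_mem _ (ops₀.mul_mem hz (ops₀.pull_mem _ hw))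
        rw [dim_prod]
        omega
      · rw [W₀.cl_push, W₀.cl_mul, W₀.cl_pull, corr_apply]
    | zero => rw [map_zero]; exact Submodule.zero_mem _
    | add x y _ _ hx hy => rw [map_add]; exact Submodule.add_mem _ hx hy
    | smul a x _ hx => rw [map_smul]; exact Submodule.smul_mem _ _ hx
  | zero => rw [LinearMap.zero_apply]; exact Submodule.zero_mem _
  | add x y _ _ hx hy => rw [LinearMap.add_apply]; exact Submodule.add_mem _ hx hy
  | smul a x _ hx => rw [LinearMap.smul_apply]; exact Submodule.smul_mem _ _ hx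

end Span

section Lift

variable (F : Family W W₀ X X₀ Y Z D D₀)

/-- **Lifting of invariant algebraic classes.** -/
theorem lift_span {N : Y.Cycles} (hN : IsAmple F N) (hB : LefschetzB W₀ Y N) {p : ℕ}
    {c : W₀.H Z} (hc : c ∈ spanCycles W₀ Z p) (hr : ∃ h, W₀.map F.ι h = c) :
    ∃ g ∈ spanCycles W₀ Y p, W₀.map F.ι g = c := by
  obtain ⟨Φ, hΦ, hLam⟩ := lefschetzB_iff_rop.1 hB
  obtain ⟨f, hfR, t, hf, hval⟩ := exists_sl2_mem rop_opAlg (W₀.isInternal Y) W_hbd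
    (rop_mulLeft (W := W₀) hN.div) hN.hard hΦ hLam
  have hfK : f ∈ KOp W₀ Y Y (-1) := mem_KS_iff.1 (Submodule.subset_span hfR)
  have hNcl : W₀.cl Y N ∈ W₀.gr Y (2 * 1) := W₀.cl_mem hN.div
  have hinj := inj_of_relative' (d := Z.dim) F.dimY (W₀.isInternal Y) (W₀.isInternal Z) W_hbd
    (N := LinearMap.mulLeft W₀.K (W₀.cl Y N))
    (N₀ := LinearMap.mulLeft W₀.K (W₀.cl Z (ops₀.pull F.ι N)))
    (r := (W₀.map F.ι).toLinearMap) (j := W₀.push F.ι) hN.hard hN.hardZ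
    (fun i c hc => by
      have h1 := W₀.mul_mem (W₀.cl_mem (ops₀.pull_mem F.ι hN.div)) hc
      rw [LinearMap.mulLeft_apply, add_comm]
      exact h1)
    (fun i x hx => W₀.map_mem F.ι hx)
    (fun i c hc => by
      have h1 := W₀.push_mem F.ι hc
      rw [F.dimY, show ((i : ℕ) : ℤ) + 2 * (((Z.dim + 1 : ℕ) : ℤ) - (Z.dim : ℤ)) =
        ((i + 2 : ℕ) : ℤ) by push_cast; ring, grZ_natCast] at h1
      exact h1)
    (fun x => by
      change W₀.map F.ι (W₀.cl Y N * x) = W₀.cl Z (ops₀.pull F.ι N) * W₀.map F.ι x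
      rw [map_mul, W₀.cl_pull])
    (fun c => by
      rw [LinearMap.mulLeft_apply, LinearMap.mulLeft_apply, W₀.cl_pull]
      exact (mul_push W₀ F.ι hNcl c).symm)
    (fun c => hN.normal c)
    (fun x h0 => hN.semisimple x h0)
    (fun b h1 hb x hx h0 h2 => by
      rw [LinearMap.pow_mulLeft] at h2
      exact hN.relative b h1 hb x hx h0 h2)
    t hf hval
  -- the operator on the invariant algebraic classes
  let P : W₀.H Z →ₗ[W₀.K] W₀.H Z := (W₀.map F.ι).toLinearMap ∘ₗ f ∘ₗ W₀.push F.ι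
  let A : Submodule W₀.K (W₀.H Z) := spanCycles W₀ Z p ⊓ LinearMap.range (W₀.map F.ι).toLinearMap
  have hfg : ∀ c ∈ A, f (W₀.push F.ι c) ∈ spanCycles W₀ Y (p : ℤ) :=
    fun c hc => kop_span hfK (push_span F.ι F.dimY hc.1)
  have hPA : ∀ c ∈ A, P c ∈ A := fun c hc => ⟨map_span F.ι (hfg c hc), ⟨_, rfl⟩⟩
  have hPinj : Function.Injective (P.restrict hPA) := by
    rw [← LinearMap.ker_eq_bot, LinearMap.ker_eq_bot']
    rintro ⟨c, hc⟩ h0
    have h1 : P c = 0 := congrArg Subtype.val h0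
    obtain ⟨x, rfl⟩ := hc.2
    exact Subtype.ext (hinj x h1)
  obtain ⟨⟨c', hc'⟩, h1⟩ := (LinearMap.injective_iff_surjective.1 hPinj) ⟨c, hc, hr⟩
  exact ⟨_, hfg c' hc', congrArg Subtype.val h1⟩

theorem lefschetzB_of_fibre (hD : X.IsCyc 1 D) (hHL : HardLefschetz W X D) {N : Y.Cycles}
    (hN : IsAmple F N) (hB : LefschetzB W₀ Y N) (hB₀ : LefschetzB W₀ X₀ D₀) :
    LefschetzB W X D := by
  apply lefschetzB_of_spanExt F hD hHL
  intro c h1 hc τ hτ
  have hHL₀ := hl_fibre F hHL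
  obtain ⟨w, hw, hT⟩ := exists_cycle_of_lefschetzB F.div hHL₀ hB₀ hc
  have hτw : W₀.cl _ w = τ := by
    have h2 : W₀.corr (W₀.cl _ w) = W₀.corr τ := IsInv.unique (W₀.isInternal X₀) hHL₀ hc hT hτ.2
    have h3 : corrLin W₀ X₀ X₀ (W₀.cl _ w - τ) = 0 := by
      rw [map_sub]
      exact sub_eq_zero.2 h2
    exact sub_eq_zero.1 (corr_inj h3)
  obtain ⟨m, hm, hm', hres⟩ := inverse_res F hHL₀ hc hτ
  have hspan : W₀.map F.ν τ ∈ spanCycles W₀ Z ((X₀.dim - c : ℕ) : ℤ) := by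
    apply map_span
    rw [← hτw]
    exact mem_span_cl hw
  obtain ⟨g, hg, hg'⟩ := lift_span F hN hB hspan hres
  refine ⟨m⁻¹ • g, Submodule.smul_mem _ _ hg, fun δ _ => ?_⟩
  rw [map_smul, resH_apply, hg', hm', inv_smul_smul₀ hm]

theorem lefschetzB_iff_fibre (hD : X.IsCyc 1 D) (hHL : HardLefschetz W X D) {N : Y.Cycles}
    (hN : IsAmple F N) (hB : LefschetzB W₀ Y N) : LefschetzB W X D ↔ LefschetzB W₀ X₀ D₀ :=
  ⟨lefschetzB_fibre F, lefschetzB_of_fibre F hD hHL hN hB⟩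

end Lift

theorem allLefschetz_of_families (hF : HasFamilies W W₀) (h : AllLefschetz W₀) :
    AllLefschetz W := by
  intro X D hD hHL
  obtain ⟨X₀, Y, Z, D₀, F, N, hN⟩ := hF X D hD hHL
  exact lefschetzB_of_fibre F hD hHL hN (h Y N hN.div hN.hard)
    (h X₀ D₀ F.div (hl_fibre F hHL))

end Pool.Agent.Q26.LF
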