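import Pool.Agent.Q26.LF.Base

/-!
# The Lefschetz standard conjecture in families: ample divisors
-/

open CategoryTheory AlgebraicGeometry

universe u v u₀ v₀

namespace Pool.Agent.Q26.LF

open Pool.Agent.H914 Pool.Agent.H914.VarClass Pool.Agent.H914.VarClass.Obj
  Pool.Agent.H914.WeilCohomology

section Alg

variable {K A B : Type*} [Field K] [Ring A] [Algebra K A] [Ring B] [Algebra K B]

/-- The composition `r j` is zero. -/
def CompZero (r : A →ₐ[K] B) (j : B →ₗ[K] A) : Prop := ∀ c, r (j c) = 0

/-- The map `j` is injective on the range of `r`. -/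
def InjOnRange (r : A →ₐ[K] B) (j : B →ₗ[K] A) : Prop := ∀ x, j (r x) = 0 → r x = 0

/-- For `1 ≤ b ≤ n` the operator `N ^ b` is injective in degree `n - b` on the kernel of `r` modulo the
image of `j`, and this image is that of the range of `r`. -/
def RelativeLefschetz (gr : ℕ → Submodule K A) (n : ℕ) (N : A) (r : A →ₐ[K] B) (j : B →ₗ[K] A) :
    Prop :=
  ∀ b, 1 ≤ b → b ≤ n → ∀ x ∈ gr (n - b), r x = 0 → (∃ c, N ^ b * x = j c) → ∃ y, x = j (r y)

/-- Every element of `T` in the range of `r` is the image of an element of `S`. -/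
def LiftsTo (r : A →ₐ[K] B) (S : Submodule K A) (T : Submodule K B) : Prop :=
  ∀ c ∈ T, (∃ h, r h = c) → ∃ g ∈ S, r g = c

end Alg

variable {k : Type u} [Field k] {𝒱 : VarClass k} {ops : CycleOps 𝒱}
  {k₀ : Type u₀} [Field k₀] {𝒱₀ : VarClass k₀} {ops₀ : CycleOps 𝒱₀}
  {W : WeilCohomology.{u, v} ops} {W₀ : WeilCohomology.{u₀, v₀} ops₀} {X : 𝒱.Obj}
  {X₀ Y Z : 𝒱₀.Obj} {D : X.Cycles} {D₀ : X₀.Cycles}

/-- `N` is an ample divisor on `Y`. The classes on the fibre `Z` which are restrictions of classes
on `Y` are the invariants of the fundamental group.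

`hard`: hard Lefschetz for `N` on `Y`. `hardZ`: hard Lefschetz for the restriction of `N` to `Z`.
`normal`: the normal bundle of the fibre `Z` is trivial. `semisimple`: the representation of the
fundamental group on `H(Z)` is semisimple (Deligne), so that the invariants have zero intersection
with the kernel of the push-forward to `Y`, which is the orthogonal complement of the invariants.
`relative`: for `b ≥ 1` the operator `N ^ b` is injective in degree `dim Y - b` on the classes on
`Y` with restriction zero to `Z` modulo the push-forwards from `Z` (which are the push-forwards of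
the invariant classes); this follows from the decomposition theorem and the relative hard Lefschetz
theorem (Beilinson, Bernstein, Deligne, Gabber). -/
structure IsAmple (F : Family W W₀ X X₀ Y Z D D₀) (N : Y.Cycles) : Prop where
  div : Y.IsCyc 1 N
  hard : HardLefschetz W₀ Y N
  hardZ : HardLefschetz W₀ Z (ops₀.pull F.ι N)
  normal : CompZero (W₀.map F.ι) (W₀.push F.ι)
  semisimple : InjOnRange (W₀.map F.ι) (W₀.push F.ι)
  relative : RelativeLefschetz (W₀.gr Y) Y.dim (W₀.cl Y N) (W₀.map F.ι) (W₀.push F.ι)

/-- Every combination of classes of cycles of codimension `p` on the fibre `Z`, with coefficients in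
the coefficient field, which is the restriction of a class on `Y` is the restriction of a combination
of classes of cycles of codimension `p` on `Y`. -/
def LiftsInvariantCycles (F : Family W W₀ X X₀ Y Z D D₀) : Prop :=
  ∀ p : ℕ, LiftsTo (W₀.map F.ι) (spanCycles W₀ Y p) (spanCycles W₀ Z p)

/-- The Lefschetz standard conjecture for all varieties of the class and all divisors which satisfy
hard Lefschetz. -/
def AllLefschetz (W : WeilCohomology.{u, v} ops) : Prop :=
  ∀ (X : 𝒱.Obj) (D : X.Cycles), X.IsCyc 1 D → HardLefschetz W X D → LefschetzB W X D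

/-- For all varieties `X` over `k` and all divisors on `X` which satisfy hard Lefschetz there is a
family with fibres over `k₀` and an ample divisor on `Y`. -/
def HasFamilies (W : WeilCohomology.{u, v} ops) (W₀ : WeilCohomology.{u₀, v₀} ops₀) : Prop :=
  ∀ (X : 𝒱.Obj) (D : X.Cycles), X.IsCyc 1 D → HardLefschetz W X D →
    ∃ (X₀ Y Z : 𝒱₀.Obj) (D₀ : X₀.Cycles) (F : Family W W₀ X X₀ Y Z D D₀) (N : Y.Cycles),
      IsAmple F N

end Pool.Agent.Q26.LF
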