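import Pool.Agent.H914R2.KDefs

/-!
# The Lefschetz standard conjecture in families: definitions
-/

open CategoryTheory AlgebraicGeometry

universe u v u₀ v₀

namespace Pool.Agent.Q26.LF

open Pool.Agent.H914 Pool.Agent.H914.VarClass Pool.Agent.H914.VarClass.Obj
  Pool.Agent.H914.WeilCohomology

section Alg

variable {K L A B : Type*} [Field K] [Field L]

/-- The isomorphism `e` is semilinear for the isomorphism `s` of the coefficients and preserves the
degrees. -/
structure IsGradedIso [AddCommGroup A] [Module K A] [AddCommGroup B] [Module L B] (s : K ≃+* L)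
    (e : A ≃+ B) (gr : ℕ → Submodule K A) (gr' : ℕ → Submodule L B) : Prop where
  semi : ∀ (r : K) (a : A), e (r • a) = s r • e a
  gr : ∀ (i : ℕ) (a : A), e a ∈ gr' i ↔ a ∈ gr i

/-- The operators `f` and `f'` correspond to each other under the isomorphism `e`. -/
def Matches [AddCommGroup A] [Module K A] [AddCommGroup B] [Module L B] (e : A ≃+ B)
    (f : A →ₗ[K] A) (f' : B →ₗ[L] B) : Prop := ∀ a, e (f a) = f' (e a)

/-- The operator `f` commutes with the operators in `M`. -/
def CommutesWith [AddCommGroup A] [Module K A] (M : Set (A →ₗ[K] A)) (f : A →ₗ[K] A) : Prop :=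
  ∀ g ∈ M, ∀ a, f (g a) = g (f a)

/-- The isomorphism `e` maps the products with `d` to the products with `d'`. -/
def MatchesClass [Ring A] [Ring B] (e : A ≃+ B) (d : A) (d' : B) : Prop :=
  ∀ a, e (d * a) = d' * e a

/-- The operators in `M` preserve the degrees and commute with the product with `d`. -/
def Fixes [Ring A] [Algebra K A] (gr : ℕ → Submodule K A) (M : Set (A →ₗ[K] A)) (d : A) : Prop :=
  ∀ g ∈ M, (∀ i, ∀ a ∈ gr i, g a ∈ gr i) ∧ ∀ a, g (d * a) = d * g a

/-- The value of `j` at `1` is a nonzero multiple of `1`. -/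
def NonzeroDegree [Ring A] [Algebra K A] [Ring B] [Algebra K B] (j : B →ₗ[K] A) : Prop :=
  ∃ m : K, m ≠ 0 ∧ j 1 = m • 1

end Alg

variable {k : Type u} [Field k] {𝒱 : VarClass k} {ops : CycleOps 𝒱}
  {k₀ : Type u₀} [Field k₀] {𝒱₀ : VarClass k₀} {ops₀ : CycleOps 𝒱₀}

/-- The operator on `H(X)` given by a cycle on `X × X`. -/
noncomputable def op (W : WeilCohomology.{u, v} ops) (X : 𝒱.Obj) (w : (X.prod X).Cycles) :
    W.H X →ₗ[W.K] W.H X :=
  W.corr (W.cl (X.prod X) w)

/-- The data of a family, see `Family`: the isomorphism `s` of the coefficients, the specialization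
`e` in cohomology, the inclusion `ι` of the fibre `Z` in `Y`, the map `ν` from `Z` to `X₀ × X₀`, and
the monodromy operators `mono` on `H(X₀)`. -/
structure FamilyData (W : WeilCohomology.{u, v} ops) (W₀ : WeilCohomology.{u₀, v₀} ops₀) (X : 𝒱.Obj)
    (X₀ Y Z : 𝒱₀.Obj) where
  /-- the isomorphism of the coefficients -/
  s : W.K ≃+* W₀.K
  /-- the specialization in cohomology -/
  e : W.H X ≃+ W₀.H X₀
  /-- the inclusion of the fibre -/
  ι : Z ⟶ Y
  /-- the map to the fibre square -/
  ν : Z ⟶ X₀.prod X₀
  /-- the monodromy operators -/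
  mono : Set (W₀.H X₀ →ₗ[W₀.K] W₀.H X₀)

section Data

variable {W : WeilCohomology.{u, v} ops} {W₀ : WeilCohomology.{u₀, v₀} ops₀} {X : 𝒱.Obj}
  {X₀ Y Z : 𝒱₀.Obj}

/-- The restriction of the cycle `z` on `Y` to `X₀ × X₀`. -/
noncomputable def FamilyData.res (F : FamilyData W W₀ X X₀ Y Z) (z : Y.Cycles) :
    (X₀.prod X₀).Cycles := ops₀.push F.ν (ops₀.pull F.ι z)

/-- The image in `Y` of the cycle `c` on `X₀ × X₀`. -/
noncomputable def FamilyData.im (F : FamilyData W W₀ X X₀ Y Z) (c : (X₀.prod X₀).Cycles) :
    Y.Cycles := ops₀.push F.ι (ops₀.pull F.ν c)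

/-- The operator `f` on `H(X₀)` commutes with the monodromy. -/
def FamilyData.Inv (F : FamilyData W W₀ X X₀ Y Z) (f : W₀.H X₀ →ₗ[W₀.K] W₀.H X₀) : Prop :=
  CommutesWith F.mono f

/-- The operator on `H(X)` given by the cycle `w` on `X × X` corresponds to the operator `f` on
`H(X₀)`. -/
def FamilyData.Gives (F : FamilyData W W₀ X X₀ Y Z) (w : (X.prod X).Cycles)
    (f : W₀.H X₀ →ₗ[W₀.K] W₀.H X₀) : Prop := Matches F.e (op W X w) f

/-- The cycles on `X × X` specialize to cycles on `X₀ × X₀`. -/
def FamilyData.Specializes (F : FamilyData W W₀ X X₀ Y Z) : Prop :=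
  ∀ p w, (X.prod X).IsCyc p w → ∃ u, (X₀.prod X₀).IsCyc p u ∧ F.Gives w (op W₀ X₀ u)

/-- A cycle `z` on `Y` gives a cycle on `X × X` whose operator is that of the restriction of `z` to
`X₀ × X₀`. -/
def FamilyData.Generic (F : FamilyData W W₀ X X₀ Y Z) : Prop :=
  ∀ p z, Y.IsCyc p z → ∃ w, (X.prod X).IsCyc p w ∧ F.Gives w (op W₀ X₀ (F.res z))

/-- If the operator of a cycle `w` on `X × X` is invariant under the fundamental group, then the
same operator is given by a cycle on `Y`. -/
def FamilyData.Descent (F : FamilyData W W₀ X X₀ Y Z) : Prop :=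
  ∀ p w, (X.prod X).IsCyc p w → ∀ f, F.Inv f → F.Gives w f →
    ∃ z, Y.IsCyc p z ∧ op W₀ X₀ (F.res z) = f

/-- The theorem of Deligne on the fixed part: the classes on `X₀ × X₀` of the invariant operators,
pulled back to `Z`, are restrictions of classes on `Y`. -/
def FamilyData.Fixed (F : FamilyData W W₀ X X₀ Y Z) : Prop :=
  ∀ τ, F.Inv (W₀.corr τ) → ∃ h, W₀.map F.ι h = W₀.map F.ν τ

end Data

/-- A smooth projective family over a smooth connected curve `S` over the algebraically closed
field `k₀`, with geometric generic fibre `X` over the field `k` and fibre `X₀` over a point `s` of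
`S`, and a smooth projective variety `Y` over `k₀`, with a map to the complete curve of `S`, which
is generically finite over a compactification of the fibre square of the family, with smooth fibre
`Z` over `s`. The isomorphism `e` is given by the specialization from `X` to `X₀`, and it maps the
class of the divisor `D` on `X` to that of the divisor `D₀` on `X₀`. The set `mono` consists of the
operators of the fundamental group of `S` on `H(X₀)`.

`degree`: `ν` is generically finite. `specializes`: specialization of cycles. `generic`: a cycle on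
`Y` gives a cycle on `X × X` whose specialization is the restriction of the cycle to `X₀ × X₀`.
`descent`: the cycle `w` is defined over a finite extension of the function field of `S`; take the
trace and the closure. `fixed`: the theorem of Deligne on the fixed part. -/
structure Family (W : WeilCohomology.{u, v} ops) (W₀ : WeilCohomology.{u₀, v₀} ops₀) (X : 𝒱.Obj)
    (X₀ Y Z : 𝒱₀.Obj) (D : X.Cycles) (D₀ : X₀.Cycles) extends FamilyData W W₀ X X₀ Y Z where
  iso : IsGradedIso s e (W.gr X) (W₀.gr X₀)
  dim : X₀.dim = X.dim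
  dimZ : Z.dim = (X₀.prod X₀).dim
  dimY : Y.dim = Z.dim + 1
  div : X₀.IsCyc 1 D₀
  map_div : MatchesClass e (W.cl X D) (W₀.cl X₀ D₀)
  mono_div : Fixes (W₀.gr X₀) mono (W₀.cl X₀ D₀)
  degree : NonzeroDegree (W₀.push ν)
  specializes : toFamilyData.Specializes
  generic : toFamilyData.Generic
  descent : toFamilyData.Descent
  fixed : toFamilyData.Fixed

end Pool.Agent.Q26.LF
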