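import Pool.Agent.H447R3.NumB
import Pool.Agent.H447R3.DegB

/-!
# The Lefschetz standard conjecture in families: linear algebra
-/

open Finset

namespace Pool.Agent.Q26.LF

open Pool.Agent.H914 Pool.Agent.H447

variable {K : Type*} [Field K] {V : Type*} [AddCommGroup V] [Module K V]

section Lower

variable [CharZero K] [Module.Finite K V] {gr : ℕ → Submodule K V} {n : ℕ} {L : Module.End K V}
  {R : ℤ → Module.End K V → Prop}

/-- the lowering operator is in the algebra if Lambda is -/
theorem exists_sl2_mem (hR : OpAlg gr R) (h : DirectSum.IsInternal gr)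
    (hbd : ∀ i, 2 * n + 1 ≤ i → gr i = ⊥) (hL : R 1 L) (hHL : HardLef gr n L)
    {Φ : Module.End K V} (hΦR : R (-1) Φ) (hΦ : IsLam gr n L Φ) :
    ∃ f, R (-1) f ∧ Sl2 (wt h n) L f ∧ IsHom gr (-2) f ∧
      ∀ i ≤ n, ∀ a ∈ gr i, (L ^ (n - i + 1)) a = 0 → ∀ j ≤ n - i,
        f ((L ^ j) a) = ((j : K) * (((n - i : ℕ) : K) - j + 1)) • (L ^ (j - 1)) a := by
  have hLh : IsHom gr 2 L := by simpa using hR.hom hL
  obtain ⟨f, t, hf, hval⟩ := exists_sl2 h hLh hbd hHL
  refine ⟨f, ?_, t, hf, hval⟩
  set Lam : Module.End K V := ∑ i ∈ range (n + 1), ∑ j ∈ range (n - i + 1),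
    ((((j : ℚ) * (((n - i : ℕ) : ℚ) - j + 1) : ℚ)) : K) • (Φ * eij h L Φ i j) with hLam
  have hvalL : ∀ i ≤ n, ∀ a ∈ gr i, (L ^ (n - i + 1)) a = 0 → ∀ j ≤ n - i,
      Lam ((L ^ j) a) = ((j : K) * (((n - i : ℕ) : K) - j + 1)) • (L ^ (j - 1)) a := by
    intro i hi a ha hp j hj
    rw [hLam, LinearMap.sum_apply, Finset.sum_eq_single i]
    · rw [LinearMap.sum_apply, Finset.sum_eq_single j]
      · rw [LinearMap.smul_apply, Module.End.mul_apply, eij_apply h hLh hΦ hi ha hp hj,
          if_pos ⟨rfl, rfl⟩]
        rcases Nat.eq_zero_or_pos j with rfl | h0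
        · simp
        · have := (hΦ i hi a ha hp).2 (j - 1) (by omega)
          rw [show j - 1 + 1 = j by omega] at this
          rw [this]
          push_cast
          rfl
      · intro j' _ hj'
        rw [LinearMap.smul_apply, Module.End.mul_apply, eij_apply h hLh hΦ hi ha hp hj,
          if_neg (by tauto), map_zero, smul_zero]
      · intro h'; exact absurd (Finset.mem_range.2 (by omega)) h'
    · intro i' _ hi'
      rw [LinearMap.sum_apply]
      apply Finset.sum_eq_zero
      intro j' _
      rw [LinearMap.smul_apply, Module.End.mul_apply, eij_apply h hLh hΦ hi ha hp hj,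
        if_neg (by tauto), map_zero, smul_zero]
    · intro h'; exact absurd (Finset.mem_range.2 (by omega)) h'
  have hfL : f = Lam := by
    apply LinearMap.ext
    intro x
    refine lef_induction' h hLh hbd hHL (p := fun x => f x = Lam x) ?_ ?_ x
    · intro a b ha hb; rw [map_add, map_add, ha, hb]
    · intro i hi a ha hp j
      by_cases hj : j ≤ n - i
      · rw [hval i hi a ha hp j hj, hvalL i hi a ha hp j hj]
      · rw [L_pow_gt hp (by omega), map_zero, map_zero]
  rw [hfL]
  apply hR.sum
  intro i _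
  apply hR.sum
  intro j _
  apply hR.smul
  have h1 : R 0 (eij h L Φ i j) := by
    unfold eij
    have h2 : R 0 (1 - L * Φ) := hR.sub hR.one (hR.cast (hR.mul hL hΦR) (by ring))
    have h3 := hR.proj_mem h hbd hL hHL hΦR hΦ i
    exact hR.cast (hR.mul (hR.pow hL j) (hR.mul (hR.mul h2 h3) (hR.pow hΦR j))) (by ring)
  exact hR.cast (hR.mul hΦR h1) (by ring)

end Lower

section Rel

variable [CharZero K] {M : Type*} [AddCommGroup M] [Module K M] {gV : ℕ → Submodule K V}
  {gM : ℕ → Submodule K M} {d : ℕ}

omit [CharZero K] in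
lemma comm_proj {N : Type*} [AddCommGroup N] [Module K N] {gN : ℕ → Submodule K N}
    (hV : DirectSum.IsInternal gV) (hN : DirectSum.IsInternal gN) {r : V →ₗ[K] N} {b : ℕ}
    (hr : ∀ i, ∀ x ∈ gV i, r x ∈ gN (i + b)) (i : ℕ) (x : V) :
    r (proj hV i x) = proj hN (i + b) (r x) := by
  refine gr_induction hV (p := fun x => r (proj hV i x) = proj hN (i + b) (r x)) ?_ ?_ x
  · intro l a ha
    by_cases h : l = i
    · subst h
      rw [proj_same hV ha, proj_same hN (hr l a ha)]
    · rw [proj_ne hV ha h, map_zero, proj_ne hN (hr l a ha) (by omega)]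
  · intro a c ha hc
    rw [map_add, map_add, map_add, map_add, ha, hc]

/-- **The key lemma.** -/
theorem inj_of_relative (hV : DirectSum.IsInternal gV) (hM : DirectSum.IsInternal gM)
    (hbM : ∀ i, 2 * d + 1 ≤ i → gM i = ⊥) {N : Module.End K V} {N₀ : Module.End K M}
    (hHL : HardLef gV (d + 1) N) (hHL₀ : HardLef gM d N₀)
    (hN₀ : ∀ i, ∀ c ∈ gM i, N₀ c ∈ gM (i + 2)) {r : V →ₗ[K] M} {j : M →ₗ[K] V}
    (hr : ∀ i, ∀ x ∈ gV i, r x ∈ gM i) (hj : ∀ i, ∀ c ∈ gM i, j c ∈ gV (i + 2))
    (hrN : ∀ x, r (N x) = N₀ (r x)) (hjN : ∀ c, j (N₀ c) = N (j c)) (hrj : ∀ c, r (j c) = 0)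
    (hinj : ∀ x, j (r x) = 0 → r x = 0)
    (hrel : ∀ b, 1 ≤ b → b ≤ d + 1 → ∀ x ∈ gV (d + 1 - b), r x = 0 → (∃ c, (N ^ b) x = j c) →
      ∃ y, x = j (r y))
    {f : Module.End K V} (t : Sl2 (wt hV (d + 1)) N f) (hf : IsHom gV (-2) f)
    (hval : ∀ i ≤ d + 1, ∀ a ∈ gV i, (N ^ (d + 1 - i + 1)) a = 0 → ∀ j ≤ d + 1 - i,
        f ((N ^ j) a) = ((j : K) * (((d + 1 - i : ℕ) : K) - j + 1)) • (N ^ (j - 1)) a) :
    ∀ x, r (f (j (r x))) = 0 → r x = 0 := by
  have hrNp : ∀ (m : ℕ) x, r ((N ^ m) x) = (N₀ ^ m) (r x) := by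
    intro m
    induction m with
    | zero => intro x; simp
    | succ m ih => intro x; rw [pow_succ, pow_succ, Module.End.mul_apply, Module.End.mul_apply, ih,
        hrN]
  have hjNp : ∀ (m : ℕ) c, j ((N₀ ^ m) c) = (N ^ m) (j c) := by
    intro m
    induction m with
    | zero => intro x; simp
    | succ m ih => intro x; rw [pow_succ, pow_succ, Module.End.mul_apply, Module.End.mul_apply, ih,
        hjN]
  have hfV : ∀ i, ∀ x ∈ gV (i + 2), f x ∈ gV i := by
    intro i x hx
    have := hf ((i + 2 : ℕ) : ℤ) x (by rw [grZ_natCast]; exact hx)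
    rwa [show ((i + 2 : ℕ) : ℤ) + -2 = (i : ℤ) by push_cast; ring, grZ_natCast] at this
  -- homogeneous elements
  have key : ∀ m i, 2 * d + 1 ≤ i + m → ∀ x, r x ∈ gM i → r (f (j (r x))) = 0 → r x = 0 := by
    intro m
    induction m using Nat.strong_induction_on with
    | _ m ih =>
      intro i hi x hx h0
      by_cases hi2 : 2 * d + 1 ≤ i
      · rw [hbM i hi2] at hx
        exact (Submodule.mem_bot _).1 hx
      -- `N₀ u = 0`
      have hju := hj i _ hx
      have hcomm : N₀ (r (f (j (r x)))) = r (f (j (r (N x)))) := by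
        rw [← hrN, hrN x, hjN]
        have h1 := congrArg (fun T => T (j (r x))) t.ef
        simp only [LinearMap.sub_apply, Module.End.mul_apply] at h1
        rw [wt, scal_apply hV _ hju] at h1
        have h2 : N (f (j (r x))) = f (N (j (r x))) +
            ((node (d + 1) (i + 2) : ℚ) : K) • j (r x) := by
          rw [← h1]; abel
        rw [h2, map_add, map_smul, hrj, smul_zero, add_zero]
      have hNu : r (N x) = 0 := by
        by_cases hm : m ≤ 1
        · have h3 := hN₀ i _ hx
          rw [hbM (i + 2) (by omega)] at h3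
          rw [hrN]
          exact (Submodule.mem_bot _).1 h3
        · refine ih (m - 2) (by omega) (i + 2) (by omega) (N x) ?_ ?_
          · rw [hrN]
            exact hN₀ i _ hx
          · rw [← hcomm, h0, map_zero]
      have hNu' : N₀ (r x) = 0 := by rw [← hrN, hNu]
      by_cases hid : i < d
      · apply (hHL₀ i (by omega)).1 _ hx
        rw [show d - i = (d - i - 1) + 1 by omega, pow_succ, Module.End.mul_apply, hNu', map_zero]
      · obtain ⟨a, rfl⟩ : ∃ a, i = d + a := ⟨i - d, by omega⟩
        have ha : a ≤ d := by omega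
        obtain ⟨y, hy, hyu⟩ := (hHL (d - a) (by omega)).2 (j (r x))
          (by rw [show 2 * (d + 1) - (d - a) = d + a + 2 by omega]; exact hju)
        rw [show d + 1 - (d - a) = a + 1 by omega] at hyu
        have hprim : (N ^ (d + 1 - (d - a) + 1)) y = 0 := by
          rw [show d + 1 - (d - a) + 1 = (a + 1) + 1 by omega, pow_succ', Module.End.mul_apply, hyu,
            ← hjN, hNu', map_zero]
        have hv := hval (d - a) (by omega) y hy hprim (a + 1) (by omega)
        rw [show d + 1 - (d - a) = a + 1 by omega, hyu, Nat.add_sub_cancel] at hv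
        rw [hv, map_smul, hrNp, smul_eq_zero] at h0
        have hry : r y = 0 := by
          rcases h0 with h0 | h0
          · exfalso
            push_cast at h0
            have h4 : ((a : K) + 1) = 0 := by
              have : ((a : K) + 1) * ((a : K) + 1 - (a + 1) + 1) = (a : K) + 1 := by ring
              rw [this] at h0
              exact h0
            have h5 : ((a + 1 : ℕ) : K) ≠ 0 := Nat.cast_ne_zero.2 (by omega)
            push_cast at h5
            exact h5 h4
          · apply (hHL₀ (d - a) (by omega)).1 _ (hr _ _ hy)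
            rw [show d - (d - a) = a by omega]
            exact h0
        obtain ⟨w, hw⟩ := hrel (a + 1) (by omega) (by omega) y
          (by rw [show d + 1 - (a + 1) = d - a by omega]; exact hy) hry ⟨r x, hyu⟩
        by_cases hda : 2 ≤ d - a
        · -- homogeneous part of `w`
          have hw2 : y = j (r (proj hV (d - a - 2) w)) := by
            have h6 := comm_proj hV hM (b := 0) (r := r) (fun i x hx => hr i x hx) (d - a - 2) w
            rw [add_zero] at h6
            rw [h6, comm_proj hM hV (b := 2) hj (d - a - 2), ← hw,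
              show d - a - 2 + 2 = d - a by omega, proj_same hV hy]
          set w' := proj hV (d - a - 2) w with hw'
          have hrw' : r w' ∈ gM (d - a - 2) := hr _ _ (proj_mem hV _ _)
          have h7 : j (r x) = j (r ((N ^ (a + 1)) w')) := by
            rw [← hyu, hw2, ← hjNp, ← hrNp]
          have h8 : r x = r ((N ^ (a + 1)) w') := by
            have h9 := hinj (x - (N ^ (a + 1)) w') (by rw [map_sub, map_sub, h7, sub_self])
            rw [map_sub] at h9
            exact sub_eq_zero.1 h9
          have h10 : r w' = 0 := by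
            apply (hHL₀ (d - a - 2) (by omega)).1 _ hrw'
            rw [show d - (d - a - 2) = (a + 1) + 1 by omega, pow_succ', Module.End.mul_apply,
              ← hrNp, ← h8, hNu']
          rw [h8, hrNp, h10, map_zero]
        · have hy0 : y = 0 := by
            have h6 : proj hV (d - a) (j (r w)) = 0 := by
              refine gr_induction hM (p := fun c => proj hV (d - a) (j c) = 0) ?_ ?_ (r w)
              · intro l c hc
                exact proj_ne hV (hj l c hc) (by omega)
              · intro b c hb hc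
                rw [map_add, map_add, hb, hc, add_zero]
            rw [← hw, proj_same hV hy] at h6
            exact h6
          rw [hy0, map_zero] at hyu
          exact hinj x hyu.symm
  intro x h0
  -- decompose
  have hall : ∀ i, proj hM i (r x) = 0 := by
    intro i
    have h6 := comm_proj hV hM (b := 0) (r := r) (fun i x hx => hr i x hx) i x
    rw [add_zero] at h6
    rw [← h6]
    apply key (2 * d + 1) i (by omega)
    · exact hr _ _ (proj_mem hV _ _)
    · have h7 : j (proj hM i (r x)) = proj hV (i + 2) (j (r x)) := comm_proj hM hV (b := 2) hj i _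
      have h8 : f (proj hV (i + 2) (j (r x))) = proj hV i (f (j (r x))) := by
        refine gr_induction hV (p := fun y => f (proj hV (i + 2) y) = proj hV i (f y)) ?_ ?_
          (j (r x))
        · intro l y hy
          by_cases hl : 2 ≤ l
          · obtain ⟨l, rfl⟩ : ∃ l', l = l' + 2 := ⟨l - 2, by omega⟩
            have h9 := hfV l y hy
            by_cases hli : l = i
            · subst hli
              rw [proj_same hV hy, proj_same hV h9]
            · rw [proj_ne hV hy (by omega), proj_ne hV h9 hli, map_zero]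
          · have h9 := hf ((l : ℕ) : ℤ) y (by rw [grZ_natCast]; exact hy)
            rw [grZ_of_neg (by omega)] at h9
            rw [proj_ne hV hy (by omega), (Submodule.mem_bot _).1 h9, map_zero, map_zero]
        · intro a b ha hb
          rw [map_add, map_add, map_add, map_add, ha, hb]
      rw [h6, h7, h8]
      have h9 := comm_proj hV hM (b := 0) (r := r) (fun i x hx => hr i x hx) i (f (j (r x)))
      rw [add_zero] at h9
      rw [h9, h0, map_zero]
  have h11 := sum_proj hM hbM
  have h12 := congrArg (fun T => T (r x)) h11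
  simp only [LinearMap.sum_apply, Module.End.one_apply] at h12
  rw [← h12]
  exact Finset.sum_eq_zero fun i _ => hall i

/-- the same, for spaces centred in degree `n = d + 1` -/
theorem inj_of_relative' {n : ℕ} (hn : n = d + 1) (hV : DirectSum.IsInternal gV)
    (hM : DirectSum.IsInternal gM)
    (hbM : ∀ i, 2 * d + 1 ≤ i → gM i = ⊥) {N : Module.End K V} {N₀ : Module.End K M}
    (hHL : HardLef gV n N) (hHL₀ : HardLef gM d N₀)
    (hN₀ : ∀ i, ∀ c ∈ gM i, N₀ c ∈ gM (i + 2)) {r : V →ₗ[K] M} {j : M →ₗ[K] V}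
    (hr : ∀ i, ∀ x ∈ gV i, r x ∈ gM i) (hj : ∀ i, ∀ c ∈ gM i, j c ∈ gV (i + 2))
    (hrN : ∀ x, r (N x) = N₀ (r x)) (hjN : ∀ c, j (N₀ c) = N (j c)) (hrj : ∀ c, r (j c) = 0)
    (hinj : ∀ x, j (r x) = 0 → r x = 0)
    (hrel : ∀ b, 1 ≤ b → b ≤ n → ∀ x ∈ gV (n - b), r x = 0 → (∃ c, (N ^ b) x = j c) →
      ∃ y, x = j (r y))
    {f : Module.End K V} (t : Sl2 (wt hV n) N f) (hf : IsHom gV (-2) f)
    (hval : ∀ i ≤ n, ∀ a ∈ gV i, (N ^ (n - i + 1)) a = 0 → ∀ j ≤ n - i,
        f ((N ^ j) a) = ((j : K) * (((n - i : ℕ) : K) - j + 1)) • (N ^ (j - 1)) a) :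
    ∀ x, r (f (j (r x))) = 0 → r x = 0 := by
  subst hn
  exact inj_of_relative hV hM hbM hHL hHL₀ hN₀ hr hj hrN hjN hrj hinj hrel t hf hval

end Rel

end Pool.Agent.Q26.LF
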