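import Pool.Agent.Q26.LF.Base

/-!
# The Lefschetz standard conjecture in families: the numerical conditions
-/

open CategoryTheory AlgebraicGeometry

universe u v u₀ v₀

namespace Pool.Agent.Q26.LF

open Pool.Agent.H914 Pool.Agent.H914.VarClass Pool.Agent.H914.VarClass.Obj
  Pool.Agent.H914.WeilCohomology

/-- The operator `T` is the inverse of the product with `d ^ c` from degree `n - c` to degree `n + c`,
and it is zero in the other degrees. -/
def Inverts {K A : Type*} [Field K] [Ring A] [Algebra K A] (gr : ℕ → Submodule K A) (n : ℕ) (d : A)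
    (c : ℕ) (T : A →ₗ[K] A) : Prop :=
  (∀ a ∈ gr (n - c), T (d ^ c * a) = a) ∧ ∀ i, i ≠ n + c → ∀ a ∈ gr i, T a = 0

variable {k : Type u} [Field k] {𝒱 : VarClass k} {ops : CycleOps 𝒱}
  {k₀ : Type u₀} [Field k₀] {𝒱₀ : VarClass k₀} {ops₀ : CycleOps 𝒱₀}
  {W : WeilCohomology.{u, v} ops} {W₀ : WeilCohomology.{u₀, v₀} ops₀} {X : 𝒱.Obj}
  {X₀ Y Z : 𝒱₀.Obj} {D : X.Cycles} {D₀ : X₀.Cycles}

/-- For all `1 ≤ c ≤ n = dim X`, the class `τ` on `X × X` of the operator which is the inverse of the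
Lefschetz operator `D ^ c` from degree `n - c` to degree `n + c` and zero in the other degrees has the
property `P (n - c) (n + c)`. -/
def ForInverses (W : WeilCohomology.{u, v} ops) (X : 𝒱.Obj) (D : X.Cycles)
    (P : ℕ → ℕ → W.H (X.prod X) → Prop) : Prop :=
  ∀ c, 1 ≤ c → c ≤ X.dim → ∀ τ ∈ W.gr (X.prod X) (2 * (X.dim - c)),
    Inverts (W.gr X) X.dim (W.cl X D) c (W.corr τ) → P (X.dim - c) (X.dim + c) τ

/-- The intersection number of the cycles `a` and `b` of complementary codimensions. -/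
noncomputable def deg (ops : CycleOps 𝒱) (X : 𝒱.Obj) (a b : X.Cycles) : ℚ :=
  X.V.degCycle (ops.mul a b)

/-- There is a cycle of codimension `p` on `Y` whose restriction to `X₀ × X₀` has the same
intersection numbers as the class `τ` with all cycles of codimension `q` on `X₀ × X₀`. -/
def Extends (F : Family W W₀ X X₀ Y Z D D₀) (p q : ℕ) (τ : W₀.H (X₀.prod X₀)) : Prop :=
  ∃ z, Y.IsCyc p z ∧ ∀ u, (X₀.prod X₀).IsCyc q u →
    W₀.tr (X₀.prod X₀) (τ * W₀.cl _ u) = (deg ops₀ (X₀.prod X₀) (F.res z) u : W₀.K)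

/-- The image in `Y` of the cycle `c` on `X₀ × X₀` has intersection number zero with all cycles of
codimension `p` on `Y`. -/
def NumTrivialOn (F : Family W W₀ X X₀ Y Z D D₀) (p : ℕ) (c : (X₀.prod X₀).Cycles) : Prop :=
  ∀ z, Y.IsCyc p z → deg ops₀ Y (F.im c) z = 0

/-- The intersection numbers of `τ` with the cycles of codimension `q` on `X₀ × X₀` are rational,
and they are zero for the cycles whose images in `Y` are numerically trivial. -/
def Orthogonal (F : Family W W₀ X X₀ Y Z D D₀) (p q : ℕ) (τ : W₀.H (X₀.prod X₀)) : Prop :=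
  ∀ u, (X₀.prod X₀).IsCyc q u → ∃ r : ℚ, W₀.tr (X₀.prod X₀) (τ * W₀.cl _ u) = (r : W₀.K) ∧
    (NumTrivialOn F p u → r = 0)

/-- Numerical and homological equivalence agree for the cycles on `Y` which are images of cycles of
codimension `n + c` on the fibre `X₀ × X₀`, `1 ≤ c ≤ n`, `n = dim X₀`. -/
def HomEqNumOnFibre (F : Family W W₀ X X₀ Y Z D D₀) : Prop :=
  ∀ c, 1 ≤ c → c ≤ X₀.dim → ∀ u, (X₀.prod X₀).IsCyc (X₀.dim + c) u →
    NumTrivialOn F (X₀.dim - c) u → W₀.cl Y (F.im u) = 0

/-- The standard conjecture D for `X`: a cycle of codimension `j` all of whose intersection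
numbers with cycles of the complementary codimension vanish is homologically equivalent to
zero. -/
def ConjD (W : WeilCohomology.{u, v} ops) (X : 𝒱.Obj) : Prop :=
  ∀ j ≤ X.dim, ∀ z, X.IsCyc j z → (∀ w, X.IsCyc (X.dim - j) w → deg ops X z w = 0) →
    W.cl X z = 0

end Pool.Agent.Q26.LF
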