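import Pool.Agent.Q26.LF.Ample
import Pool.Agent.Q26.LF.Num
import Pool.Agent.Q26.LF.LinA

/-!
# The Lefschetz standard conjecture in families: the criterion
-/

open CategoryTheory AlgebraicGeometry Finset

universe u v u₀ v₀

namespace Pool.Agent.Q26.LF

open Pool.Agent.H914 Pool.Agent.H914.VarClass Pool.Agent.H914.VarClass.Obj
  Pool.Agent.H914.WeilCohomology Pool.Agent.H447

variable {k : Type u} [Field k] {𝒱 : VarClass k} {ops : CycleOps 𝒱}
  {k₀ : Type u₀} [Field k₀] {𝒱₀ : VarClass k₀} {ops₀ : CycleOps 𝒱₀}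
  {W : WeilCohomology.{u, v} ops} {W₀ : WeilCohomology.{u₀, v₀} ops₀} {X : 𝒱.Obj}
  {X₀ Y Z : 𝒱₀.Obj} {D : X.Cycles} {D₀ : X₀.Cycles}

section Basic

variable (F : Family W W₀ X X₀ Y Z D D₀)

/-- restriction in cohomology -/
noncomputable def resH : W₀.H Y →ₗ[W₀.K] W₀.H (X₀.prod X₀) :=
  W₀.push F.ν ∘ₗ (W₀.map F.ι).toLinearMap

/-- image in cohomology -/
noncomputable def imH : W₀.H (X₀.prod X₀) →ₗ[W₀.K] W₀.H Y :=
  W₀.push F.ι ∘ₗ (W₀.map F.ν).toLinearMap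

lemma resH_apply (h : W₀.H Y) : resH F h = W₀.push F.ν (W₀.map F.ι h) := rfl
lemma imH_apply (c : W₀.H (X₀.prod X₀)) : imH F c = W₀.push F.ι (W₀.map F.ν c) := rfl

lemma cl_res (z : Y.Cycles) : W₀.cl _ (F.res z) = resH F (W₀.cl Y z) := by
  rw [FamilyData.res, W₀.cl_push, W₀.cl_pull, resH_apply]

lemma cl_im (c : (X₀.prod X₀).Cycles) : W₀.cl _ (F.im c) = imH F (W₀.cl _ c) := by
  rw [FamilyData.im, W₀.cl_push, W₀.cl_pull, imH_apply]

lemma res_mem {p : ℕ} {z : Y.Cycles} (hz : Y.IsCyc p z) : (X₀.prod X₀).IsCyc p (F.res z) :=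
  ops₀.push_mem _ (ops₀.pull_mem _ hz) (by rw [F.dimZ])

lemma im_mem {p : ℕ} {c : (X₀.prod X₀).Cycles} (hc : (X₀.prod X₀).IsCyc p c) :
    Y.IsCyc (p + 1) (F.im c) :=
  ops₀.push_mem _ (ops₀.pull_mem _ hc) (by rw [F.dimY]; ring)

lemma adj {q : ℕ} {c : W₀.H (X₀.prod X₀)} (hc : c ∈ W₀.gr (X₀.prod X₀) (2 * q)) (h : W₀.H Y) :
    W₀.tr (X₀.prod X₀) (resH F h * c) = W₀.tr Y (imH F c * h) := by
  rw [resH_apply, imH_apply, W₀.tr_push, W₀.tr_push, W₀.even_comm (W₀.map_mem F.ν hc)]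

lemma deg_res {p q : ℕ} (hpq : p + q = (X₀.prod X₀).dim) {z : Y.Cycles} (hz : Y.IsCyc p z)
    {u : (X₀.prod X₀).Cycles} (hu : (X₀.prod X₀).IsCyc q u) :
    deg ops₀ (X₀.prod X₀) (F.res z) u = deg ops₀ Y (F.im u) z := by
  have h1 : ((deg ops₀ (X₀.prod X₀) (F.res z) u : ℚ) : W₀.K) =
      ((deg ops₀ Y (F.im u) z : ℚ) : W₀.K) := by
    change (((X₀.prod X₀).V.degCycle (ops₀.mul (F.res z) u) : ℚ) : W₀.K) =
      ((Y.V.degCycle (ops₀.mul (F.im u) z) : ℚ) : W₀.K)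
    rw [← tr_mul_cl (res_mem F hz) hu hpq, ← tr_mul_cl (im_mem F hu) hz
      (by rw [F.dimY, F.dimZ, ← hpq]; ring), cl_res, cl_im, adj F (W₀.cl_mem hu)]
  exact_mod_cast h1

lemma e_pow (c : ℕ) (a : W.H X) : F.e ((LinearMap.mulLeft W.K (W.cl X D) ^ c) a) =
    (LinearMap.mulLeft W₀.K (W₀.cl X₀ D₀) ^ c) (F.e a) := by
  induction c generalizing a with
  | zero => simp
  | succ c ih =>
    rw [pow_succ, pow_succ, Module.End.mul_apply, Module.End.mul_apply, ih]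
    congr 1
    exact F.map_div a

lemma mem_e {i : ℕ} {a : W.H X} : F.e a ∈ W₀.gr X₀ i ↔ a ∈ W.gr X i := F.iso.gr i a

lemma mem_e' {i : ℕ} {b : W₀.H X₀} : F.e.symm b ∈ W.gr X i ↔ b ∈ W₀.gr X₀ i := by
  rw [← mem_e F, AddEquiv.apply_symm_apply]

include F in
theorem hl_fibre (hHL : HardLefschetz W X D) : HardLefschetz W₀ X₀ D₀ := by
  intro i hi
  rw [F.dim] at hi ⊢
  constructor
  · intro a ha h0
    have h1 : F.e.symm a = 0 := by
      apply (hHL i hi).1 _ ((mem_e' F).2 ha)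
      apply F.e.injective
      rw [e_pow, AddEquiv.apply_symm_apply, h0, map_zero]
    have := congrArg F.e h1
    rwa [AddEquiv.apply_symm_apply, map_zero] at this
  · intro b hb
    obtain ⟨a, ha, h⟩ := (hHL i hi).2 _ ((mem_e' F).2 hb)
    refine ⟨F.e a, (mem_e F).2 ha, ?_⟩
    rw [← e_pow, h, AddEquiv.apply_symm_apply]

lemma mem_grZ {i : ℤ} {a : W.H X} : F.e a ∈ grZ (W₀.gr X₀) i ↔ a ∈ grZ (W.gr X) i := by
  by_cases h0 : 0 ≤ i
  · lift i to ℕ using h0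
    rw [grZ_natCast, grZ_natCast]
    exact mem_e F
  · rw [grZ_of_neg (by omega), grZ_of_neg (by omega), Submodule.mem_bot, Submodule.mem_bot]
    exact F.e.map_eq_zero_iff

/-- the operators corresponding to the combinations of algebraic operators on `H(X)` -/
def TOp (d : ℤ) (y₀ : Module.End W₀.K (W₀.H X₀)) : Prop :=
  ∃ y ∈ KS (ROp W X) d, ∀ a, F.e (y a) = y₀ (F.e a)

theorem top_opAlg : OpAlg (W₀.gr X₀) (TOp F) where
  one := ⟨1, rop_opAlg.kspan.one, fun _ => rfl⟩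
  zero d := ⟨0, rop_opAlg.kspan.zero d, fun _ => by simp⟩
  add := by
    rintro d _ _ ⟨y, hy, h⟩ ⟨z, hz, h'⟩
    exact ⟨y + z, rop_opAlg.kspan.add hy hz, fun a => by
      rw [LinearMap.add_apply, LinearMap.add_apply, map_add, h, h']⟩
  smul := by
    rintro q d _ ⟨y, hy, h⟩
    exact ⟨_, rop_opAlg.kspan.smul q hy, fun a => by
      rw [LinearMap.smul_apply, LinearMap.smul_apply, F.iso.semi, h, map_ratCast]⟩
  mul := by
    rintro d e _ _ ⟨y, hy, h⟩ ⟨z, hz, h'⟩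
    exact ⟨y * z, rop_opAlg.kspan.mul hy hz, fun a => by
      rw [Module.End.mul_apply, Module.End.mul_apply, h, h']⟩
  hom := by
    rintro d y₀ ⟨y, hy, h⟩ i b hb
    have h1 := rop_opAlg.kspan.hom hy i (F.e.symm b) (by
      rw [← mem_grZ F, AddEquiv.apply_symm_apply]
      exact hb)
    rw [← mem_grZ F, h, AddEquiv.apply_symm_apply] at h1
    exact h1

lemma top_smul {d : ℤ} {y₀ : Module.End W₀.K (W₀.H X₀)} (h : TOp F d y₀) (c : W₀.K) :
    TOp F d (c • y₀) := by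
  obtain ⟨y, hy, h⟩ := h
  refine ⟨F.s.symm c • y, Submodule.smul_mem _ _ hy, fun a => ?_⟩
  rw [LinearMap.smul_apply, LinearMap.smul_apply, F.iso.semi, h, RingEquiv.apply_symm_apply]

/-- combinations of restrictions of cycles on `Y` -/
lemma top_of_span {p : ℕ} {g : W₀.H Y} (hg : g ∈ spanCycles W₀ Y p) {d : ℤ}
    (hd : (p : ℤ) = X.dim + d) : TOp F d (W₀.corr (resH F g)) := by
  induction hg using Submodule.span_induction with
  | mem x hx =>
    obtain ⟨q, hq, z, hz, rfl⟩ := hx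
    obtain ⟨w, hw, hm⟩ := F.generic q z hz
    refine ⟨W.corr (W.cl _ w), ?_, ?_⟩
    · rw [mem_KS_iff]
      exact KOp.gen (by omega) hw
    · rw [← cl_res]
      exact hm
  | zero =>
    rw [map_zero, corr_zero]
    exact (top_opAlg F).zero d
  | add x y _ _ hx hy =>
    rw [map_add, corr_add]
    exact (top_opAlg F).add hx hy
  | smul a x _ hx =>
    rw [map_smul, corr_smul]
    exact top_smul F hx a

/-- specialization of combinations of algebraic operators -/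
lemma exists_of_top {d : ℤ} {y₀ : Module.End W₀.K (W₀.H X₀)} (h : TOp F d y₀) :
    ∃ γ ∈ spanCycles W₀ (X₀.prod X₀) (X₀.dim + d), W₀.corr γ = y₀ := by
  obtain ⟨y, hy, h⟩ := h
  have key : ∃ γ ∈ spanCycles W₀ (X₀.prod X₀) (X₀.dim + d),
      ∀ a, F.e (y a) = W₀.corr γ (F.e a) := by
    rw [mem_KS_iff] at hy
    clear h
    induction hy using Submodule.span_induction with
    | mem x hx =>
      obtain ⟨p, hp, z, hz, rfl⟩ := hx
      obtain ⟨w, hw, hm⟩ := F.specializes p z hz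
      exact ⟨_, Submodule.subset_span ⟨p, by rw [hp, F.dim], w, hw, rfl⟩, hm⟩
    | zero => exact ⟨0, Submodule.zero_mem _, fun a => by rw [corr_zero]; simp⟩
    | add x y _ _ hx hy =>
      obtain ⟨γ, hγ, h1⟩ := hx
      obtain ⟨δ, hδ, h2⟩ := hy
      exact ⟨γ + δ, Submodule.add_mem _ hγ hδ, fun a => by
        rw [corr_add, LinearMap.add_apply, LinearMap.add_apply, map_add, h1, h2]⟩
    | smul a x _ hx =>
      obtain ⟨γ, hγ, h1⟩ := hx
      exact ⟨F.s a • γ, Submodule.smul_mem _ _ hγ, fun b => by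
        rw [corr_smul, LinearMap.smul_apply, LinearMap.smul_apply, F.iso.semi, h1]⟩
  obtain ⟨γ, hγ, h1⟩ := key
  refine ⟨γ, hγ, LinearMap.ext fun b => ?_⟩
  obtain ⟨a, rfl⟩ := F.e.surjective b
  rw [← h1, h]

end Basic

end Pool.Agent.Q26.LF
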