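import Pool.Agent.Q26.LF.MainA

/-!
# The Lefschetz standard conjecture in families: the criterion
-/

open CategoryTheory AlgebraicGeometry Finset

universe u v u₀ v₀

namespace Pool.Agent.Q26.LF

open Pool.Agent.H914 Pool.Agent.H914.VarClass Pool.Agent.H914.VarClass.Obj
  Pool.Agent.H914.WeilCohomology Pool.Agent.H447

variable {k : Type u} [Field k] {𝒱 : VarClass k} {ops : CycleOps 𝒱}
  {k₀ : Type u₀} [Field k₀] {𝒱₀ : VarClass k₀} {ops₀ : CycleOps 𝒱₀}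
  {W : WeilCohomology.{u, v} ops} {W₀ : WeilCohomology.{u₀, v₀} ops₀} {X : 𝒱.Obj}
  {X₀ Y Z : 𝒱₀.Obj} {D : X.Cycles} {D₀ : X₀.Cycles}

/-- the inverse class is extended by a combination of cycles on `Y` -/
def SpanExt (F : Family W W₀ X X₀ Y Z D D₀) (p q : ℕ) (τ : W₀.H (X₀.prod X₀)) : Prop :=
  ∃ g ∈ spanCycles W₀ Y p, ∀ δ ∈ spanCycles W₀ (X₀.prod X₀) q,
    W₀.tr (X₀.prod X₀) (resH F g * δ) = W₀.tr (X₀.prod X₀) (τ * δ)

/-- orthogonality for combinations of cycles -/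
def SpanOrth (F : Family W W₀ X X₀ Y Z D D₀) (p q : ℕ) (τ : W₀.H (X₀.prod X₀)) : Prop :=
  ∀ γ ∈ spanCycles W₀ (X₀.prod X₀) q,
    (∀ z, Y.IsCyc p z → W₀.tr (X₀.prod X₀) (resH F (W₀.cl Y z) * γ) = 0) →
      W₀.tr (X₀.prod X₀) (τ * γ) = 0

section Core

variable (F : Family W W₀ X X₀ Y Z D D₀)

/-- **The core.** -/
theorem lefschetzB_of_spanExt (hD : X.IsCyc 1 D) (hHL : HardLefschetz W X D)
    (h : ForInverseClasses W₀ X₀ D₀ (SpanExt F)) : LefschetzB W X D := by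
  have hHL₀ := hl_fibre F hHL
  have hL₀ : TOp F 1 (LinearMap.mulLeft W₀.K (W₀.cl X₀ D₀)) :=
    ⟨_, Submodule.subset_span (rop_mulLeft (W := W) hD), fun a => F.map_div a⟩
  have hmain := exists_theta_of_num (top_opAlg F) (W₀.isInternal X₀) W_hbd hL₀ hHL₀ (by
    intro c h1 hc T hT
    obtain ⟨τ, rfl⟩ := exists_corr T
    have hτm : τ ∈ W₀.gr (X₀.prod X₀) (2 * (X₀.dim - c)) := by
      apply mem_gr_of_isHom
      have := hT.isHom (W₀.isInternal X₀) hHL₀ hc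
      rwa [show (-(c : ℤ)) = ((X₀.dim - c : ℕ) : ℤ) - X₀.dim by omega] at this
    obtain ⟨g, hg, hg'⟩ := h c h1 hc τ ⟨hτm, hT⟩
    refine ⟨W₀.corr (resH F g), top_of_span F hg (by rw [← F.dim]; omega), ?_⟩
    intro y hy
    obtain ⟨δ, hδ, rfl⟩ := exists_of_top F hy
    have hδ' : δ ∈ spanCycles W₀ (X₀.prod X₀) ((X₀.dim + c : ℕ) : ℤ) := by
      rwa [show ((X₀.dim + c : ℕ) : ℤ) = (X₀.dim : ℤ) + (c : ℤ) by push_cast; rfl]
    have hgm : resH F g ∈ W₀.gr (X₀.prod X₀) (2 * (X₀.dim - c)) := by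
      have h3 := W₀.push_mem F.ν (W₀.map_mem F.ι (span_gr hg))
      rw [F.dimZ, sub_self, mul_zero, add_zero, grZ_natCast] at h3
      exact h3
    have e1 := hg' _ (swap_span hδ')
    rw [tr_mul_eq_trace hgm, tr_mul_eq_trace hτm, map_swap_swap, mul_assoc, mul_assoc] at e1
    exact e1)
  apply lefschetzB_of_inj hD hHL
  intro c hc
  obtain ⟨-, -, θ, ⟨ν, hν, hm⟩, hθ'⟩ := hmain (X₀.dim - c) (by omega) c
    (by have := F.dim; omega)
  refine ⟨ν, mem_KS_iff.1 hν, fun b hb h0 => ?_⟩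
  obtain ⟨a, ha, rfl⟩ := surj_pow hHL hc hb
  have h1 := hθ' (F.e a) (by rw [mem_e, F.dim]; exact ha)
  have h2 := hm ((LinearMap.mulLeft W.K (W.cl X D) ^ c) a)
  rw [h0, e_pow, h1, map_zero] at h2
  have h3 : a = 0 := F.e.injective (by rw [← h2, map_zero])
  rw [h3, map_zero]

theorem spanExt_of_orth {p q : ℕ} {τ : W₀.H (X₀.prod X₀)} (h : SpanOrth F p q τ) :
    SpanExt F p q τ := by
  obtain ⟨w, hw, hw'⟩ := exists_rep_of_orth (bil W₀ (X₀.prod X₀))
    ((spanCycles W₀ Y p).map (resH F)) (spanCycles W₀ (X₀.prod X₀) q)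
    (W₀.tr (X₀.prod X₀) ∘ₗ LinearMap.mulLeft W₀.K τ) (by
      intro δ hδ h0
      exact h δ hδ (fun z hz => h0 _ (Submodule.mem_map_of_mem (mem_span_cl hz))))
  obtain ⟨g, hg, rfl⟩ := hw
  exact ⟨g, hg, hw'⟩

lemma span_rep {V : 𝒱₀.Obj} {q : ℕ} {γ : W₀.H V} (hγ : γ ∈ spanCycles W₀ V q) :
    ∃ (m : ℕ) (c : Fin m → W₀.K) (z : Fin m → V.Cycles), (∀ i, V.IsCyc q (z i)) ∧
      γ = ∑ i, c i • W₀.cl V (z i) := by
  rw [spanCycles, Submodule.mem_span_set'] at hγ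
  obtain ⟨m, c, g, hg⟩ := hγ
  choose p' hp' z hz hz' using fun i => (g i).2
  refine ⟨m, c, z, fun i => ?_, ?_⟩
  · have : p' i = q := by exact_mod_cast hp' i
    rw [← this]; exact hz i
  · rw [← hg]
    exact Finset.sum_congr rfl (fun i _ => by rw [hz' i])

/-- the cycle obtained from a combination by a linear form on the coefficients -/
lemma ret_cycle {V : 𝒱₀.Obj} {q m : ℕ} (c : Fin m → W₀.K) {z : Fin m → V.Cycles}
    (hz : ∀ i, V.IsCyc q (z i)) (ret : W₀.K →ₗ[ℚ] ℚ) :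
    V.IsCyc q (∑ i, ret (c i) • z i) ∧
      W₀.cl V (∑ i, ret (c i) • z i) = ∑ i, ((ret (c i) : ℚ) : W₀.K) • W₀.cl V (z i) := by
  constructor
  · refine Finset.sum_induction _ (fun u => V.IsCyc q u) (fun a b => SmVar.IsCyc.add)
      (SmVar.IsCyc.zero _ _) (fun i _ => (hz i).smul _)
  · rw [map_sum]
    exact Finset.sum_congr rfl (fun i _ => cl_smul W₀ _ _)

lemma ret_key {V : 𝒱₀.Obj} {m : ℕ} (c : Fin m → W₀.K) (z : Fin m → V.Cycles)
    (ret : W₀.K →ₗ[ℚ] ℚ) (f : W₀.H V →ₗ[W₀.K] W₀.K) (s : Fin m → ℚ)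
    (hs : ∀ i, f (W₀.cl V (z i)) = (s i : W₀.K)) :
    f (∑ i, ((ret (c i) : ℚ) : W₀.K) • W₀.cl V (z i)) =
      ((ret (f (∑ i, c i • W₀.cl V (z i))) : ℚ) : W₀.K) := by
  rw [map_sum, map_sum, map_sum]
  push_cast
  apply Finset.sum_congr rfl
  intro i _
  rw [map_smul, map_smul, hs, smul_eq_mul, smul_eq_mul, ret_mul]
  push_cast; rfl

/-- combinations orthogonal to the cycles on `Y` -/
lemma numTrivial_ret {p q m : ℕ} (hpq : p + q = (X₀.prod X₀).dim) (c : Fin m → W₀.K)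
    {z : Fin m → (X₀.prod X₀).Cycles} (hz : ∀ i, (X₀.prod X₀).IsCyc q (z i))
    (h : ∀ y, Y.IsCyc p y → W₀.tr (X₀.prod X₀) (resH F (W₀.cl Y y) *
      ∑ i, c i • W₀.cl _ (z i)) = 0) (ret : W₀.K →ₗ[ℚ] ℚ) :
    NumTrivialOn F p (∑ i, ret (c i) • z i) := by
  intro y hy
  obtain ⟨hu, hcl⟩ := ret_cycle c hz ret
  rw [← deg_res F hpq hy hu]
  have h2 := ret_key c z ret (W₀.tr _ ∘ₗ LinearMap.mulLeft W₀.K (resH F (W₀.cl Y y)))
    (fun i => deg ops₀ _ (F.res y) (z i)) (fun i => by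
      rw [LinearMap.comp_apply, LinearMap.mulLeft_apply, ← cl_res]
      exact tr_mul_cl (res_mem F hy) (hz i) hpq)
  rw [← hcl, LinearMap.comp_apply, LinearMap.mulLeft_apply, LinearMap.comp_apply,
    LinearMap.mulLeft_apply, h y hy, map_zero, Rat.cast_zero, ← cl_res,
    tr_mul_cl (res_mem F hy) hu hpq] at h2
  exact_mod_cast h2

theorem spanOrth_of_orthogonal {p q : ℕ} (hpq : p + q = (X₀.prod X₀).dim)
    {τ : W₀.H (X₀.prod X₀)} (h : Orthogonal F p q τ) : SpanOrth F p q τ := by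
  intro γ hγ horth
  obtain ⟨m, c, z, hz, rfl⟩ := span_rep hγ
  rw [← Module.forall_dual_apply_eq_zero_iff ℚ]
  intro ret
  obtain ⟨hu, hcl⟩ := ret_cycle c hz ret
  obtain ⟨r0, h0, h0'⟩ := h _ hu
  rw [h0' (numTrivial_ret F hpq c hz horth ret), Rat.cast_zero] at h0
  choose r hr hr' using fun i => h (z i) (hz i)
  have h3 := ret_key c z ret (W₀.tr _ ∘ₗ LinearMap.mulLeft W₀.K τ) r (fun i => hr i)
  rw [← hcl, LinearMap.comp_apply, LinearMap.mulLeft_apply, h0, LinearMap.comp_apply,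
    LinearMap.mulLeft_apply] at h3
  exact_mod_cast h3.symm

/-- the inverse classes commute with the monodromy -/
lemma inverse_inv (hHL₀ : HardLefschetz W₀ X₀ D₀) {c : ℕ} (hc : c ≤ X₀.dim)
    {τ : W₀.H (X₀.prod X₀)} (hτ : IsInverseClass W₀ X₀ D₀ c τ) : F.Inv (W₀.corr τ) := by
  intro g hg a
  have hgp : ∀ (m : ℕ) b, g ((LinearMap.mulLeft W₀.K (W₀.cl X₀ D₀) ^ m) b) =
      (LinearMap.mulLeft W₀.K (W₀.cl X₀ D₀) ^ m) (g b) := by
    intro m
    induction m with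
    | zero => intro b; simp
    | succ m ih =>
      intro b
      rw [pow_succ, Module.End.mul_apply, Module.End.mul_apply, ih]
      congr 1
      exact (F.mono_div g hg).2 b
  refine gr_induction (W₀.isInternal X₀)
    (p := fun a => W₀.corr τ (g a) = g (W₀.corr τ a)) ?_ ?_ a
  · intro i a ha
    by_cases hi : i = X₀.dim + c
    · subst hi
      obtain ⟨b, hb, rfl⟩ := surj_pow hHL₀ hc ha
      rw [hgp, hτ.2.1 b hb, hτ.2.1 _ ((F.mono_div g hg).1 _ b hb)]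
    · rw [hτ.2.2 i hi a ha, hτ.2.2 i hi _ ((F.mono_div g hg).1 _ a ha), map_zero]
  · intro a b ha hb
    rw [map_add, map_add, map_add, map_add, ha, hb]

/-- the inverse class is a multiple of a restriction -/
lemma inverse_res (hHL₀ : HardLefschetz W₀ X₀ D₀) {c : ℕ} (hc : c ≤ X₀.dim)
    {τ : W₀.H (X₀.prod X₀)} (hτ : IsInverseClass W₀ X₀ D₀ c τ) :
    ∃ m : W₀.K, m ≠ 0 ∧ W₀.push F.ν (W₀.map F.ν τ) = m • τ ∧
      ∃ h, W₀.map F.ι h = W₀.map F.ν τ := by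
  obtain ⟨m, hm, hm'⟩ := F.degree
  refine ⟨m, hm, ?_, F.fixed τ (inverse_inv F hHL₀ hc hτ)⟩
  have h1 := W₀.push_mul F.ν 1 τ
  rw [one_mul, hm', smul_mul_assoc, one_mul] at h1
  exact h1

theorem spanOrth_of_homEqNum (hHL₀ : HardLefschetz W₀ X₀ D₀) (hE : HomEqNumOnFibre F) {c : ℕ}
    (h1 : 1 ≤ c) (hc : c ≤ X₀.dim) {τ : W₀.H (X₀.prod X₀)}
    (hτ : IsInverseClass W₀ X₀ D₀ c τ) : SpanOrth F (X₀.dim - c) (X₀.dim + c) τ := by
  intro γ hγ horth
  obtain ⟨m, hm, hm', h, hh⟩ := inverse_res F hHL₀ hc hτ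
  have hγm := span_gr hγ
  have hz : imH F γ = 0 := by
    obtain ⟨l, a, z, hz, rfl⟩ := span_rep hγ
    rw [map_sum]
    simp only [map_smul]
    apply sum_smul_eq_zero a (fun i => imH F (W₀.cl _ (z i)))
    intro ret
    obtain ⟨hu, hcl⟩ := ret_cycle a hz ret
    have h2 := hE c h1 hc _ hu
      (numTrivial_ret F (by rw [dim_prod]; omega) a hz horth ret)
    rw [cl_im, hcl, map_sum] at h2
    simp only [map_smul] at h2
    exact h2
  have h3 : W₀.tr (X₀.prod X₀) (resH F h * γ) = 0 := by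
    rw [adj F hγm, hz, zero_mul, map_zero]
  rw [resH_apply, hh, hm', smul_mul_assoc, map_smul, smul_eq_mul] at h3
  exact (mul_eq_zero.1 h3).resolve_left hm

theorem homEqNumOnFibre_of_homEqNum (h : ConjD W₀ Y) : HomEqNumOnFibre F := by
  intro c h1 hc u hu hnum
  have hdim := F.dimY
  have hdimZ := F.dimZ
  rw [dim_prod] at hdimZ
  apply h _ (by omega) _ (im_mem F hu)
  intro w hw
  apply hnum w
  rwa [show Y.dim - (X₀.dim + c + 1) = X₀.dim - c by omega] at hw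

end Core

section Forward

variable (F : Family W W₀ X X₀ Y Z D D₀)

/-- the inverses of the Lefschetz operators are algebraic -/
lemma exists_cycle_of_lefschetzB (hD : X.IsCyc 1 D) (hHL : HardLefschetz W X D)
    (hB : LefschetzB W X D) {c : ℕ} (hc : c ≤ X.dim) :
    ∃ w, (X.prod X).IsCyc (X.dim - c) w ∧
      IsInv (W.gr X) X.dim (LinearMap.mulLeft W.K (W.cl X D)) c (W.corr (W.cl _ w)) := by
  have hLh : IsHom (W.gr X) 2 (LinearMap.mulLeft W.K (W.cl X D)) := by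
    simpa using rop_opAlg.hom (rop_mulLeft (W := W) hD)
  obtain ⟨Φ, hΦ, hLam⟩ := lefschetzB_iff_rop.1 hB
  have hT := isInv_of_theta (W.isInternal X) hLh hc
    (fun a ha => lam_pow_L_pow hLh W_hbd hHL hLam hc ha)
  have hTR : ROp W X (-c) (Φ ^ c * proj (W.isInternal X) (X.dim + c)) :=
    rop_opAlg.cast (rop_opAlg.mul (rop_opAlg.cast (rop_opAlg.pow hΦ c) rfl)
      (rop_opAlg.proj_mem (W.isInternal X) W_hbd (rop_mulLeft hD) hHL hΦ hLam _)) (by ring)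
  obtain ⟨Y, ⟨q, hq, z, hz, hY⟩ | ⟨hd, -⟩, hYT⟩ := hTR
  · obtain rfl : q = X.dim - c := by omega
    refine ⟨z, hz, ?_⟩
    rw [← hYT, hY] at hT
    exact hT
  · omega

theorem extends_of_lefschetzB (hD : X.IsCyc 1 D) (hHL : HardLefschetz W X D)
    (hB : LefschetzB W X D) : ForInverseClasses W₀ X₀ D₀ (Extends F) := by
  intro c h1 hc τ hτ
  have hHL₀ := hl_fibre F hHL
  have hc' : c ≤ X.dim := by rw [← F.dim]; exact hc
  obtain ⟨w, hw, hT⟩ := exists_cycle_of_lefschetzB hD hHL hB hc'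
  have hgives : F.Gives w (W₀.corr τ) := by
    intro a
    refine gr_induction (W.isInternal X)
      (p := fun a => F.e (W.corr (W.cl _ w) a) = W₀.corr τ (F.e a)) ?_ ?_ a
    · intro i a ha
      by_cases hi : i = X.dim + c
      · subst hi
        obtain ⟨b, hb, rfl⟩ := surj_pow hHL hc' ha
        rw [hT.1 b hb, e_pow, hτ.2.1 _ (by rw [mem_e, F.dim]; exact hb)]
      · rw [hT.2 i hi a ha, hτ.2.2 i (by rw [F.dim]; exact hi) _ ((mem_e F).2 ha), map_zero]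
    · intro a b ha hb
      rw [map_add, map_add, map_add, map_add, ha, hb]
  obtain ⟨z, hz, hzf⟩ := F.descent _ w hw _ (inverse_inv F hHL₀ hc hτ) hgives
  have h2 : W₀.cl _ (F.res z) = τ := by
    have h3 : corrLin W₀ X₀ X₀ (W₀.cl _ (F.res z) - τ) = 0 := by
      rw [map_sub]
      exact sub_eq_zero.2 hzf
    exact sub_eq_zero.1 (corr_inj h3)
  rw [← F.dim] at hz
  refine ⟨z, hz, fun u hu => ?_⟩
  rw [← h2]
  exact tr_mul_cl (res_mem F hz) hu (by rw [dim_prod]; omega)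

theorem orthogonal_of_extends {p q : ℕ} (hpq : p + q = (X₀.prod X₀).dim)
    {τ : W₀.H (X₀.prod X₀)} (h : Extends F p q τ) : Orthogonal F p q τ := by
  intro u hu
  obtain ⟨z, hz, hzu⟩ := h
  refine ⟨_, hzu u hu, fun h0 => ?_⟩
  rw [deg_res F hpq hz hu]
  exact h0 z hz

theorem forInverses_iff {V : 𝒱₀.Obj} {E : V.Cycles} {P : ℕ → ℕ → W₀.H (V.prod V) → Prop} :
    ForInverses W₀ V E P ↔ ForInverseClasses W₀ V E P := by
  have key : ∀ (c : ℕ) (τ : W₀.H (V.prod V)), Inverts (W₀.gr V) V.dim (W₀.cl V E) c (W₀.corr τ) ↔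
      IsInv (W₀.gr V) V.dim (LinearMap.mulLeft W₀.K (W₀.cl V E)) c (W₀.corr τ) := by
    intro c τ
    rw [Inverts, IsInv, LinearMap.pow_mulLeft]
    rfl
  constructor
  · intro h c h1 hc τ hτ
    exact h c h1 hc τ hτ.1 ((key c τ).2 hτ.2)
  · intro h c h1 hc τ hτ hi
    exact h c h1 hc τ ⟨hτ, (key c τ).1 hi⟩

/-- **The criterion.** -/
theorem tfae (hD : X.IsCyc 1 D) (hHL : HardLefschetz W X D) :
    List.TFAE [LefschetzB W X D, ForInverses W₀ X₀ D₀ (Extends F),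
      ForInverses W₀ X₀ D₀ (Orthogonal F)] := by
  rw [forInverses_iff, forInverses_iff]
  tfae_have 1 → 2 := extends_of_lefschetzB F hD hHL
  tfae_have 2 → 3 := by
    intro h c h1 hc τ hτ
    exact orthogonal_of_extends F (by rw [dim_prod]; omega) (h c h1 hc τ hτ)
  tfae_have 3 → 1 := by
    intro h
    apply lefschetzB_of_spanExt F hD hHL
    intro c h1 hc τ hτ
    exact spanExt_of_orth F (spanOrth_of_orthogonal F (by rw [dim_prod]; omega) (h c h1 hc τ hτ))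
  tfae_finish

theorem lefschetzB_of_homEqNumOnFibre (hD : X.IsCyc 1 D) (hHL : HardLefschetz W X D)
    (h : HomEqNumOnFibre F) : LefschetzB W X D := by
  apply lefschetzB_of_spanExt F hD hHL
  intro c h1 hc τ hτ
  exact spanExt_of_orth F (spanOrth_of_homEqNum F (hl_fibre F hHL) h h1 hc hτ)

include F in
/-- the specialization of the conjecture -/
theorem lefschetzB_fibre (hB : LefschetzB W X D) : LefschetzB W₀ X₀ D₀ := by
  obtain ⟨w, hw, hLam⟩ := hB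
  obtain ⟨u, hu, hm⟩ := F.specializes _ w hw
  refine ⟨u, by rw [F.dim]; exact hu, ?_⟩
  intro i hi a ha hp
  rw [F.dim] at hi hp ⊢
  obtain ⟨b, rfl⟩ := F.e.surjective a
  have hb := (mem_e F).1 ha
  have hpb : (LinearMap.mulLeft W.K (W.cl X D) ^ (X.dim - i + 1)) b = 0 := by
    apply F.e.injective
    rw [e_pow, hp, map_zero]
  obtain ⟨h1, h2⟩ := hLam i hi b hb hpb
  constructor
  · have h3 := hm b
    change F.e (W.corr (W.cl _ w) b) = _ at h3
    rw [h1, map_zero] at h3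
    exact h3.symm
  · intro j hj
    have h3 := hm ((LinearMap.mulLeft W.K (W.cl X D) ^ (j + 1)) b)
    change F.e (W.corr (W.cl _ w) _) = _ at h3
    rw [h2 j hj, e_pow, e_pow] at h3
    exact h3.symm

end Forward

end Pool.Agent.Q26.LF
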